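import Mathlib
import Pool.Agent.H.MP_589357_co.D

namespace Pool.Agent.Results.MP_589357_co.Disproof

open Pool.Agent.H.MP_589357_co

/-- Mean subtree order: average number of vertices over all subgraphs that are trees. -/
noncomputable def mu {V : Type} (G : SimpleGraph V) : ℚ :=
  ((∑ᶠ T : {T : G.Subgraph // T.coe.IsTree}, T.1.verts.ncard : ℕ) : ℚ) /
    (Nat.card {T : G.Subgraph // T.coe.IsTree} : ℚ)

/-- Average size of a vertex set inducing a (nonempty) connected subgraph. -/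
noncomputable def av {V : Type} (G : SimpleGraph V) : ℚ :=
  ((∑ᶠ S : {S : Set V // (G.induce S).Connected}, S.1.ncard : ℕ) : ℚ) /
    (Nat.card {S : Set V // (G.induce S).Connected} : ℚ)

def G0 : SimpleGraph (Fin 543) where
  Adj x y := R (ed [0] 0 l0 c0) x y
  symm := ⟨fun _ _ h => h.symm⟩
  loopless := ⟨fun x h => noloop (x, x) (h.elim id id) rfl⟩

theorem hs : ((0 : Fin 543) :: nm l0 c0).Pairwise (· < ·) := by
  rw [names]; exact List.pairwise_lt_finRange _

theorem hu (v : Fin 543) : v ∈ (0 : Fin 543) :: nm l0 c0 := by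
  rw [names]; exact List.mem_finRange v

theorem conn : G0.Connected := by
  have : ∀ v, G0.Reachable 0 v := fun v => by
    rcases List.mem_cons.1 (hu v) with h | h
    · rw [h]
    · exact reach G0 [0] c0 0 l0 (fun e he => Or.inl he) v h
  exact ⟨fun x y => (this x).symm.trans (this y)⟩

theorem trees (q : ℕ) :
    ∑ᶠ T : {T : G0.Subgraph // T.coe.IsTree}, (1 + q * (T.1.verts.ncard - 1)) =
      fw true l0 c0 1 q + tot (fun l C => fw false l C 1 q) 1 l0 c0 := by
  refine trees_eq Fin.val (fun _ _ h => h) (fun _ _ => Iff.rfl) hs hu ?_ 1 q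
  intro b l o C h
  simp only [c0, List.cons.injEq, Prod.mk.injEq] at h
  obtain ⟨⟨rfl, rfl, -⟩, rfl⟩ := h
  exact nocl

theorem sets (q : ℕ) :
    ∑ᶠ S : {S : Set (Fin 543) // (G0.induce S).Connected}, (1 + q * (S.1.ncard - 1)) =
      fwV true l0 c0 1 q + tot (fun l C => fwV false l C 1 q) 1 l0 c0 := by
  classical
  rw [← sets_eq (G := G0) (fun _ _ => Iff.rfl) hs hu 1 q]
  have : Fintype {S : Set (Fin 543) // (G0.induce S).Connected} := Fintype.ofFinite _
  rw [finsum_eq_sum_of_fintype]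
  refine Finset.sum_bij (fun S _ => (Set.toFinite S.1).toFinset) ?_ ?_ ?_ ?_
  · intro S _
    refine Finset.mem_filter.2 ⟨Finset.mem_univ _, ?_⟩
    rw [Set.Finite.coe_toFinset]; exact S.2
  · intro S _ T _ h
    exact Subtype.ext (Set.Finite.toFinset_inj.1 h)
  · intro S hS
    exact ⟨⟨S, (Finset.mem_filter.1 hS).2⟩, Finset.mem_univ _, Finset.finite_toSet_toFinset S⟩
  · intro S _
    rw [Set.ncard_eq_toFinset_card S.1 (Set.toFinite _)]

theorem aux {I : Type} [Finite I] (f : I → ℕ) (hf : ∀ i, 1 ≤ f i) :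
    Nat.card I = ∑ᶠ i, (1 + 0 * (f i - 1)) ∧ ∑ᶠ i, f i = ∑ᶠ i, (1 + 1 * (f i - 1)) := by
  have : Fintype I := Fintype.ofFinite _
  refine ⟨by simp [finsum_eq_sum_of_fintype], finsum_congr fun i => ?_⟩
  have := hf i
  omega

theorem result : ¬ ∀ (V : Type) [Fintype V] (G : SimpleGraph V), G.Connected → av G ≤ mu G := by
  intro h
  have h0 := h _ G0 conn
  have a := aux (fun T : {T : G0.Subgraph // T.coe.IsTree} => T.1.verts.ncard) (fun T => by
    obtain ⟨⟨v, hv⟩⟩ := T.2.connected.nonempty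
    exact (Set.ncard_pos (Set.toFinite _)).2 ⟨v, hv⟩)
  have b := aux (fun S : {S : Set (Fin 543) // (G0.induce S).Connected} => S.1.ncard) (fun S => by
    obtain ⟨⟨v, hv⟩⟩ := S.2.nonempty
    exact (Set.ncard_pos (Set.toFinite _)).2 ⟨v, hv⟩)
  rw [av, mu, a.1, a.2, b.1, b.2, trees, trees, sets, sets, t0, t1, s0, s1] at h0
  norm_num at h0

end Pool.Agent.Results.MP_589357_co.Disproof
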